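import Pool.Agent.H752.GE.Strong

/-!
# How many oracles make `NE` closed under complement?

For every gauge `f`, the set of the oracles `A` with `NE^A = coNE^A` is a null set for `f` if and
only if for every `ε > 0` there are infinitely many `N` with `f N ≤ ε log log N`. The same holds
for every set of oracles between `{A | NE^A = coNE^A, E^A ≠ NE^A and NE^A ≠ ESPACE^A}` and
`{A | NE^A = coNE^A}`.
-/

namespace Pool.Agent.Results.MP_64fb07_lc.GaugeThreshold

open Pool.Agent.NPC Pool.Agent.H620R2.Gauge Pool.Agent.H622R2.Exp Filter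

theorem result (f : ℕ → ℝ) :
    (∀ O : Set Oracle,
      (∀ A : Oracle, (∀ L, InNTime Lin A L ↔ InNTime Lin A Lᶜ) →
        (¬ ∀ L, InTime Lin A L ↔ InNTime Lin A L) →
        (¬ ∀ L, InNTime Lin A L ↔ InSpace Lin A L) → A ∈ O) →
      (∀ A ∈ O, ∀ L, InNTime Lin A L → InNTime Lin A Lᶜ) →
      (Null f O ↔
        ∀ ε : ℝ, 0 < ε → ∃ᶠ N : ℕ in atTop, f N ≤ ε * Real.logb 2 (Real.logb 2 N))) ∧
    (Null f {A : Oracle | ∀ L, InNTime Lin A L ↔ InNTime Lin A Lᶜ} ↔
      ∀ ε : ℝ, 0 < ε → ∃ᶠ N : ℕ in atTop, f N ≤ ε * Real.logb 2 (Real.logb 2 N)) :=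
  ⟨fun O h1 h2 => Pool.Agent.H752.GE.strong_ne f O h1 h2, Pool.Agent.H752.GE.null_ne_iff' f⟩

end Pool.Agent.Results.MP_64fb07_lc.GaugeThreshold
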