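import Pool.Agent.H583R2.AD.Main

set_option autoImplicit false

/-!
# Complements of languages in `NE` relative to a random oracle
-/

namespace Pool.Agent.Results.MP_64fb07_lc.RandomOracleAdvice

open Pool.Agent.H628R3.RO Pool.Agent.H583R2.AD

/-- For almost every oracle `A`: some language in `NE` relative to `A` has a complement that is not
in `NEXP / (n - 8)` relative to `A`. -/
theorem result : ∀ᵐ A ∂randomOracle, ∃ L ∈ NE A, Lᶜ ∉ Adv (NEXP A) (fun n => n - 8) :=
  main1

end Pool.Agent.Results.MP_64fb07_lc.RandomOracleAdvice
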